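import Pool.Agent.Helper90.MT.Common

/-!
# Project MT, module P: the majorant for two colours
-/

set_option autoImplicit false
set_option linter.unusedSectionVars false

open Finset

namespace Pool.Agent.Helper87.MT

open Pool.Agent.Helper1.MT
open Pool.Agent.Helper90.MT (sg sg_prod ws_nonneg superSum memSum mem_cls mem_supp prod_supp
  ws_supp T_supp cls_inj prod_one_add_le exp_le_two)

variable {ι κ : Type} [Fintype ι] [Fintype κ] [DecidableEq ι] [DecidableEq κ]

/-- Delete the colours `m` and `m'` at one point. -/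
def rr (m m' : κ) (a : Option κ) : Option κ := if a = some m ∨ a = some m' then none else a

/-- Delete the colours `m` and `m'`. -/
def rs (m m' : κ) (c : ι → Option κ) : ι → Option κ := fun p => rr m m' (c p)

/-- The local factor of the weight of the points of colour `m` or `m'`. -/
def l2 (m m' : κ) (x : ℝ) (a : Option κ) : ℝ := if a = some m ∨ a = some m' then x else 1

/-- The weight of the points of colour `m` or `m'`. -/
def w2 (m m' : κ) (w : ι → ℝ) (c : ι → Option κ) : ℝ := ∏ p, l2 m m' (w p) (c p)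

/-- The choice of `y` without the sign. -/
noncomputable def Yv (t : ι → ℝ) (γ : Finset ι → ℝ) (c : ι → Option κ) : ℝ :=
  if T t (supp c) ≤ 1 then ∏ i : κ, γ (cls c i) else 0

/-- The truncation for the colours `m` and `m'`. -/
noncomputable def rho (m m' : κ) (t : ι → ℝ) (c : ι → Option κ) : ℝ :=
  if T t (cls c m) ≤ 1 ∧ T t (cls c m') ≤ 1 then 1 else 0

/-- The fibre of the deletion. -/
def fib (m m' : κ) (b : ι → Option κ) : Finset (ι → Option κ) :=
  univ.filter (fun c => rs m m' c = b)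

theorem mem_fib {m m' : κ} {b c : ι → Option κ} : c ∈ fib m m' b ↔ rs m m' c = b := by
  simp [fib]

/-- The sums over the fibres. -/
noncomputable def Zb (m m' : κ) (w t : ι → ℝ) (γ : Finset ι → ℝ) (b : ι → Option κ) : ℝ :=
  ∑ c ∈ fib m m' b, w2 m m' w c * Yv t γ c

/-- The sums over the fibres. -/
noncomputable def Vb (m m' : κ) (w t : ι → ℝ) (b : ι → Option κ) : ℝ :=
  ∑ c ∈ fib m m' b, w2 m m' w c * rho m m' t c

theorem inv_sg {m m' : κ} (x : ℝ) {a : Option κ} (h1 : a ≠ some m) (h2 : a ≠ some m')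
    (a' : Option κ) :
    inv x a a' * sg a' = (inv x a (rr m m' a') * sg (rr m m' a')) * l2 m m' x a' := by
  rcases a' with _ | j
  · simp [rr, l2]
  · by_cases hj : (some j = some m ∨ some j = some m')
    · have h3 : rr m m' (some j) = none := by unfold rr; rw [if_pos hj]
      have h4 : l2 m m' x (some j) = x := by unfold l2; rw [if_pos hj]
      rw [h3, h4]
      rcases a with _ | i
      · simp [inv, sg]
      · have h5 : i ≠ j := by
          rintro rfl
          rcases hj with h | h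
          · exact h1 h
          · exact h2 h
        simp [inv, sg, h5]
    · have h3 : rr m m' (some j) = some j := by unfold rr; rw [if_neg hj]
      have h4 : l2 m m' x (some j) = 1 := by unfold l2; rw [if_neg hj]
      rw [h3, h4, mul_one]

theorem lam_sg {m m' : κ} (w : ι → ℝ) (F : (ι → Option κ) → ℝ) {c : ι → Option κ}
    (h1 : cls c m = ∅) (h2 : cls c m' = ∅) :
    lam w (fun c' => (∏ p, sg (c' p)) * F c') c =
      ∑ b : ι → Option κ, (∏ p, inv (w p) (c p) (b p) * sg (b p)) *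
        ∑ c' ∈ fib m m' b, w2 m m' w c' * F c' := by
  have hm : ∀ p, c p ≠ some m := by
    intro p hp
    have : p ∈ cls c m := mem_cls.2 hp
    rw [h1] at this
    simp at this
  have hm' : ∀ p, c p ≠ some m' := by
    intro p hp
    have : p ∈ cls c m' := mem_cls.2 hp
    rw [h2] at this
    simp at this
  unfold lam
  rw [← Finset.sum_fiberwise (s := (univ : Finset (ι → Option κ))) (g := rs m m')]
  refine Finset.sum_congr rfl fun b _ => ?_
  rw [Finset.mul_sum]
  refine Finset.sum_congr rfl fun c' hc' => ?_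
  have hb : rs m m' c' = b := (Finset.mem_filter.1 hc').2
  have h3 : (∏ p, inv (w p) (c p) (c' p)) * ∏ p, sg (c' p) =
      (∏ p, inv (w p) (c p) (b p) * sg (b p)) * w2 m m' w c' := by
    unfold w2
    rw [← Finset.prod_mul_distrib, ← Finset.prod_mul_distrib]
    refine Finset.prod_congr rfl fun p _ => ?_
    rw [inv_sg (m := m) (m' := m') (w p) (hm p) (hm' p) (c' p), ← hb]
    rfl
  rw [← mul_assoc, h3]
  ring

theorem w2_nonneg {m m' : κ} {w : ι → ℝ} (hw : ∀ p, 0 ≤ w p) (c : ι → Option κ) :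
    0 ≤ w2 m m' w c := by
  unfold w2 l2
  refine Finset.prod_nonneg fun p _ => ?_
  split_ifs
  · exact hw p
  · exact zero_le_one

theorem rho_nonneg {m m' : κ} {t : ι → ℝ} (c : ι → Option κ) : 0 ≤ rho m m' t c := by
  unfold rho
  split_ifs
  · exact zero_le_one
  · exact le_rfl

theorem rr_idem (m m' : κ) (a : Option κ) : rr m m' (rr m m' a) = rr m m' a := by
  by_cases h : a = some m ∨ a = some m'
  · have h1 : rr m m' a = none := by unfold rr; rw [if_pos h]
    rw [h1]
    simp [rr]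
  · have h1 : rr m m' a = a := by unfold rr; rw [if_neg h]
    rw [h1, h1]

theorem rs_idem (m m' : κ) (c : ι → Option κ) : rs m m' (rs m m' c) = rs m m' c :=
  funext fun p => rr_idem m m' (c p)

/-- A fixed point of the deletion avoids the two colours. -/
theorem fix_ne {m m' : κ} {b : ι → Option κ} (hb : rs m m' b = b) (p : ι) :
    b p ≠ some m ∧ b p ≠ some m' := by
  have h1 : rr m m' (b p) = b p := congrFun hb p
  constructor
  · intro h
    rw [h] at h1
    simp [rr] at h1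
  · intro h
    rw [h] at h1
    simp [rr] at h1

theorem Vb_ge_one {m m' : κ} {w t : ι → ℝ} (hw : ∀ p, 0 ≤ w p) {b : ι → Option κ}
    (hb : rs m m' b = b) : 1 ≤ Vb m m' w t b := by
  unfold Vb
  have h1 : b ∈ fib m m' b := mem_fib.2 hb
  have hm : cls b m = ∅ := by
    ext p
    simp only [mem_cls, Finset.notMem_empty, iff_false]
    exact (fix_ne hb p).1
  have hm' : cls b m' = ∅ := by
    ext p
    simp only [mem_cls, Finset.notMem_empty, iff_false]
    exact (fix_ne hb p).2
  have h2 : w2 m m' w b * rho m m' t b = 1 := by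
    have h3 : w2 m m' w b = 1 := by
      unfold w2 l2
      refine Finset.prod_eq_one fun p _ => ?_
      rw [if_neg]
      rintro (h | h)
      · exact (fix_ne hb p).1 h
      · exact (fix_ne hb p).2 h
    have h4 : rho m m' t b = 1 := by
      unfold rho
      rw [hm, hm', if_pos]
      simp [T]
    rw [h3, h4, mul_one]
  calc (1 : ℝ) = w2 m m' w b * rho m m' t b := h2.symm
    _ ≤ _ := Finset.single_le_sum (f := fun c => w2 m m' w c * rho m m' t c)
        (fun c _ => mul_nonneg (w2_nonneg hw c) (rho_nonneg c)) h1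

/-- The modified coefficients without the sign. -/
noncomputable def Fv (m m' : κ) (w t : ι → ℝ) (γ : Finset ι → ℝ) (c : ι → Option κ) : ℝ :=
  rho m m' t c * (Zb m m' w t γ (rs m m' c) / Vb m m' w t (rs m m' c))

theorem sum_Fv {m m' : κ} {w t : ι → ℝ} {γ : Finset ι → ℝ} (hw : ∀ p, 0 ≤ w p)
    (b : ι → Option κ) :
    ∑ c ∈ fib m m' b, w2 m m' w c * Fv m m' w t γ c = Zb m m' w t γ b := by
  by_cases hb : rs m m' b = b
  · have h1 : ∀ c ∈ fib m m' b, w2 m m' w c * Fv m m' w t γ c =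
        (w2 m m' w c * rho m m' t c) * (Zb m m' w t γ b / Vb m m' w t b) := by
      intro c hc
      unfold Fv
      rw [mem_fib.1 hc]
      ring
    rw [Finset.sum_congr rfl h1, ← Finset.sum_mul]
    have h2 : (0 : ℝ) < Vb m m' w t b := lt_of_lt_of_le zero_lt_one (Vb_ge_one hw hb)
    change Vb m m' w t b * _ = _
    field_simp
  · have h1 : fib m m' b = ∅ := by
      rw [Finset.eq_empty_iff_forall_notMem]
      intro c hc
      apply hb
      rw [← mem_fib.1 hc, rs_idem]
    unfold Zb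
    rw [h1]
    simp

theorem lam_eq {m m' : κ} {w t : ι → ℝ} {γ : Finset ι → ℝ} (hw : ∀ p, 0 ≤ w p)
    {c : ι → Option κ} (h1 : cls c m = ∅) (h2 : cls c m' = ∅) :
    lam w (fun c' => (∏ p, sg (c' p)) * Fv m m' w t γ c') c = lam w (yw t γ) c := by
  have h3 : yw t γ = fun c' : ι → Option κ => (∏ p, sg (c' p)) * Yv t γ c' := by
    funext c'
    unfold yw Yv
    rw [sg_prod]
  rw [h3, lam_sg w _ h1 h2, lam_sg w _ h1 h2]
  refine Finset.sum_congr rfl fun b _ => ?_
  rw [sum_Fv hw]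
  rfl

theorem T_rs {m m' : κ} (hmm : m ≠ m') (t : ι → ℝ) (c : ι → Option κ) :
    T t (supp c) = T t (supp (rs m m' c)) + T t (cls c m) + T t (cls c m') := by
  unfold T supp cls
  rw [Finset.sum_filter, Finset.sum_filter, Finset.sum_filter, Finset.sum_filter,
    ← Finset.sum_add_distrib, ← Finset.sum_add_distrib]
  refine Finset.sum_congr rfl fun p _ => ?_
  unfold rs rr
  rcases hc : c p with _ | a
  · simp
  · by_cases h1 : a = m
    · subst h1
      simp [hmm]
    · by_cases h2 : a = m'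
      · subst h2
        simp [h1]
      · simp [h1, h2]

theorem supp_rs_sub (m m' : κ) (c : ι → Option κ) : supp (rs m m' c) ⊆ supp c := by
  intro p hp
  rw [mem_supp] at hp ⊢
  intro h
  apply hp
  simp [rs, rr, h]

theorem T_mono {t : ι → ℝ} (ht : ∀ p, 0 ≤ t p) {S S' : Finset ι} (h : S ⊆ S') :
    T t S ≤ T t S' := Finset.sum_le_sum_of_subset_of_nonneg h fun p _ _ => ht p

theorem ws_rs {m m' : κ} (w : ι → ℝ) (c : ι → Option κ) :
    ws w (supp c) = ws w (supp (rs m m' c)) * w2 m m' w c := by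
  unfold ws w2 supp
  rw [Finset.prod_filter, Finset.prod_filter, ← Finset.prod_mul_distrib]
  refine Finset.prod_congr rfl fun p _ => ?_
  unfold rs rr l2
  rcases hc : c p with _ | a
  · simp
  · by_cases h : (some a = some m ∨ some a = some m')
    · simp only [if_pos h]
      simp
    · simp only [if_neg h]
      simp

theorem w2_cls {m m' : κ} (hmm : m ≠ m') (w : ι → ℝ) (c : ι → Option κ) :
    w2 m m' w c = ws w (cls c m) * ws w (cls c m') := by
  unfold ws w2 cls
  rw [Finset.prod_filter, Finset.prod_filter, ← Finset.prod_mul_distrib]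
  refine Finset.prod_congr rfl fun p _ => ?_
  unfold l2
  by_cases h1 : c p = some m
  · have h2 : c p ≠ some m' := by
      rw [h1]
      intro h
      exact hmm (Option.some.inj h)
    simp [h1, hmm]
  · by_cases h2 : c p = some m'
    · have h3 : m' ≠ m := fun h => hmm h.symm
      simp [h2, h3]
    · simp [h1, h2]

theorem cls_rs {m m' i : κ} (h1 : i ≠ m) (h2 : i ≠ m') (c : ι → Option κ) :
    cls (rs m m' c) i = cls c i := by
  ext p
  rw [mem_cls, mem_cls]
  unfold rs rr
  by_cases h : c p = some m ∨ c p = some m'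
  · rw [if_pos h]
    constructor
    · intro h3
      exact absurd h3 (by simp)
    · intro h3
      exfalso
      rw [h3] at h
      rcases h with h | h
      · exact h1 (Option.some.inj h)
      · exact h2 (Option.some.inj h)
  · rw [if_neg h]

/-- Two colourings with the same deletion and the same classes of `m`, `m'` are equal. -/
theorem fib_inj {m m' : κ} {b c c' : ι → Option κ} (hc : rs m m' c = b) (hc' : rs m m' c' = b)
    (h1 : cls c m = cls c' m) (h2 : cls c m' = cls c' m') : c = c' := by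
  apply cls_inj
  funext i
  by_cases hi : i = m
  · subst hi
    exact h1
  · by_cases hi' : i = m'
    · subst hi'
      exact h2
    · have h3 := cls_rs hi hi' c
      have h4 := cls_rs hi hi' c'
      change cls c i = cls c' i
      rw [← h3, ← h4, hc, hc']

theorem fib_sum_le {m m' : κ} (b : ι → Option κ) {F : Finset ι → Finset ι → ℝ}
    (hF : ∀ S S', 0 ≤ F S S') :
    ∑ c ∈ fib m m' b, F (cls c m) (cls c m') ≤ ∑ S : Finset ι, ∑ S' : Finset ι, F S S' := by
  have hinj : Set.InjOn (fun c : ι → Option κ => (cls c m, cls c m'))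
      ((fib m m' b : Finset (ι → Option κ)) : Set (ι → Option κ)) := by
    intro c hc c' hc' h
    have h1 : rs m m' c = b := mem_fib.1 (by simpa using hc)
    have h2 : rs m m' c' = b := mem_fib.1 (by simpa using hc')
    have h3 := Prod.mk.inj h
    exact fib_inj h1 h2 h3.1 h3.2
  rw [← Finset.sum_product', Finset.univ_product_univ,
    ← Finset.sum_image (f := fun x : Finset ι × Finset ι => F x.1 x.2) hinj]
  exact Finset.sum_le_sum_of_subset_of_nonneg (Finset.subset_univ _) fun x _ _ => hF x.1 x.2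

/-- The product of `γ` over the colours different from `m`, `m'`. -/
noncomputable def gb (m m' : κ) (γ : Finset ι → ℝ) (b : ι → Option κ) : ℝ :=
  ∏ i : κ, if i = m ∨ i = m' then 1 else γ (cls b i)

theorem prod_gb {m m' : κ} (hmm : m ≠ m') (γ : Finset ι → ℝ) {b c : ι → Option κ}
    (hc : rs m m' c = b) :
    ∏ i : κ, γ (cls c i) = gb m m' γ b * (γ (cls c m) * γ (cls c m')) := by
  have h1 : γ (cls c m) = ∏ i : κ, if i = m then γ (cls c m) else 1 := by
    rw [Finset.prod_ite_eq' univ m (fun _ => γ (cls c m)), if_pos (Finset.mem_univ _)]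
  have h2 : γ (cls c m') = ∏ i : κ, if i = m' then γ (cls c m') else 1 := by
    rw [Finset.prod_ite_eq' univ m' (fun _ => γ (cls c m')), if_pos (Finset.mem_univ _)]
  rw [h1, h2]
  unfold gb
  rw [← Finset.prod_mul_distrib, ← Finset.prod_mul_distrib]
  refine Finset.prod_congr rfl fun i _ => ?_
  by_cases hi : i = m
  · subst hi
    simp [hmm]
  · by_cases hi' : i = m'
    · subst hi'
      simp [hi]
    · have h3 := cls_rs hi hi' c
      rw [hc] at h3
      simp [hi, hi', h3]

theorem gb_nonneg {m m' : κ} {γ : Finset ι → ℝ} (h0 : ∀ S, 0 ≤ γ S) (b : ι → Option κ) :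
    0 ≤ gb m m' γ b := by
  unfold gb
  refine Finset.prod_nonneg fun i _ => ?_
  split_ifs
  · exact zero_le_one
  · exact h0 _

theorem gb_le_one {m m' : κ} {γ : Finset ι → ℝ} (h0 : ∀ S, 0 ≤ γ S) (h1 : ∀ S, γ S ≤ 1)
    (b : ι → Option κ) : gb m m' γ b ≤ 1 := by
  unfold gb
  refine Finset.prod_le_one (fun i _ => ?_) fun i _ => ?_
  · split_ifs
    · exact zero_le_one
    · exact h0 _
  · split_ifs
    · exact le_rfl
    · exact h1 _

theorem Yv_nonneg {t : ι → ℝ} {γ : Finset ι → ℝ} (h0 : ∀ S, 0 ≤ γ S) (c : ι → Option κ) :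
    0 ≤ Yv t γ c := by
  unfold Yv
  split_ifs
  · exact Finset.prod_nonneg fun i _ => h0 _
  · exact le_rfl

theorem Yv_le {t : ι → ℝ} {γ : Finset ι → ℝ} (h0 : ∀ S, 0 ≤ γ S) (c : ι → Option κ) :
    Yv t γ c ≤ ∏ i : κ, γ (cls c i) := by
  unfold Yv
  split_ifs
  · exact le_rfl
  · exact Finset.prod_nonneg fun i _ => h0 _

theorem Zb_nonneg {m m' : κ} {w t : ι → ℝ} {γ : Finset ι → ℝ} (hw : ∀ p, 0 ≤ w p)
    (h0 : ∀ S, 0 ≤ γ S) (b : ι → Option κ) : 0 ≤ Zb m m' w t γ b :=
  Finset.sum_nonneg fun c _ => mul_nonneg (w2_nonneg hw c) (Yv_nonneg h0 c)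

theorem A1_nonneg {w : ι → ℝ} {γ : Finset ι → ℝ} (hw : ∀ p, 0 ≤ w p) (h0 : ∀ S, 0 ≤ γ S) :
    0 ≤ A1 w γ :=
  Finset.sum_nonneg fun S _ => mul_nonneg (h0 S) (ws_nonneg hw S)

theorem Zb_le {m m' : κ} (hmm : m ≠ m') {w t : ι → ℝ} {γ : Finset ι → ℝ} (hw : ∀ p, 0 ≤ w p)
    (h0 : ∀ S, 0 ≤ γ S) (b : ι → Option κ) :
    Zb m m' w t γ b ≤ gb m m' γ b * A1 w γ ^ 2 := by
  have h1 : ∀ c ∈ fib m m' b, w2 m m' w c * Yv t γ c ≤
      gb m m' γ b * ((γ (cls c m) * ws w (cls c m)) * (γ (cls c m') * ws w (cls c m'))) := by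
    intro c hc
    have h2 := prod_gb hmm γ (mem_fib.1 hc)
    have h3 := Yv_le (t := t) h0 c
    rw [h2] at h3
    calc w2 m m' w c * Yv t γ c ≤ w2 m m' w c * (gb m m' γ b * (γ (cls c m) * γ (cls c m'))) :=
          mul_le_mul_of_nonneg_left h3 (w2_nonneg hw c)
      _ = _ := by rw [w2_cls hmm]; ring
  unfold Zb
  refine (Finset.sum_le_sum h1).trans ?_
  rw [← Finset.mul_sum]
  refine mul_le_mul_of_nonneg_left ?_ (gb_nonneg h0 b)
  refine (fib_sum_le b (F := fun S S' => (γ S * ws w S) * (γ S' * ws w S')) fun S S' =>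
    mul_nonneg (mul_nonneg (h0 S) (ws_nonneg hw S)) (mul_nonneg (h0 S') (ws_nonneg hw S'))).trans ?_
  rw [pow_two]
  unfold A1
  rw [Finset.sum_mul_sum]

/-- The extension of `b` by two disjoint sets. -/
def ext2 (m m' : κ) (b : ι → Option κ) (S S' : Finset ι) (p : ι) : Option κ :=
  if p ∈ S then some m else if p ∈ S' then some m' else b p

theorem ext2_rs {m m' : κ} {b : ι → Option κ} (hb : rs m m' b = b) {S S' : Finset ι}
    (h1 : Disjoint S (supp b)) (h2 : Disjoint S' (supp b)) :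
    rs m m' (ext2 m m' b S S') = b := by
  funext p
  have hn : ∀ {S : Finset ι}, Disjoint S (supp b) → p ∈ S → b p = none := by
    intro S h hp
    by_contra h3
    exact Finset.disjoint_left.1 h hp (mem_supp.2 h3)
  unfold rs ext2
  by_cases hS : p ∈ S
  · rw [if_pos hS, hn h1 hS]
    simp [rr]
  · rw [if_neg hS]
    by_cases hS' : p ∈ S'
    · rw [if_pos hS', hn h2 hS']
      simp [rr]
    · rw [if_neg hS']
      exact congrFun hb p

theorem ext2_m {m m' : κ} (hmm : m ≠ m') {b : ι → Option κ} (hb : rs m m' b = b)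
    (S S' : Finset ι) : cls (ext2 m m' b S S') m = S := by
  ext p
  rw [mem_cls]
  unfold ext2
  by_cases hS : p ∈ S
  · simp [hS]
  · rw [if_neg hS]
    by_cases hS' : p ∈ S'
    · rw [if_pos hS']
      constructor
      · intro h
        exact absurd (Option.some.inj h).symm hmm
      · intro h
        exact absurd h hS
    · rw [if_neg hS']
      constructor
      · intro h
        exact absurd h (fix_ne hb p).1
      · intro h
        exact absurd h hS

theorem ext2_m' {m m' : κ} (hmm : m ≠ m') {b : ι → Option κ} (hb : rs m m' b = b)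
    {S S' : Finset ι} (hd : Disjoint S S') : cls (ext2 m m' b S S') m' = S' := by
  ext p
  rw [mem_cls]
  unfold ext2
  by_cases hS : p ∈ S
  · rw [if_pos hS]
    constructor
    · intro h
      exact absurd (Option.some.inj h) hmm
    · intro h
      exact absurd h (Finset.disjoint_left.1 hd hS)
  · rw [if_neg hS]
    by_cases hS' : p ∈ S'
    · simp [hS']
    · rw [if_neg hS']
      constructor
      · intro h
        exact absurd h (fix_ne hb p).2
      · intro h
        exact absurd h hS'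

theorem fib_sum_ge {m m' : κ} (hmm : m ≠ m') {b : ι → Option κ} (hb : rs m m' b = b)
    {F : Finset ι → Finset ι → ℝ} (hF : ∀ S S', 0 ≤ F S S') :
    ∑ x ∈ (univ : Finset (Finset ι × Finset ι)).filter (fun x => Disjoint x.1 x.2 ∧
      Disjoint x.1 (supp b) ∧ Disjoint x.2 (supp b)), F x.1 x.2 ≤
      ∑ c ∈ fib m m' b, F (cls c m) (cls c m') := by
  set D := (univ : Finset (Finset ι × Finset ι)).filter (fun x => Disjoint x.1 x.2 ∧
      Disjoint x.1 (supp b) ∧ Disjoint x.2 (supp b)) with hD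
  have hm : ∀ x ∈ D, Disjoint x.1 x.2 ∧ Disjoint x.1 (supp b) ∧ Disjoint x.2 (supp b) :=
    fun x hx => (Finset.mem_filter.1 hx).2
  have h1 : ∀ x ∈ D, F x.1 x.2 =
      F (cls (ext2 m m' b x.1 x.2) m) (cls (ext2 m m' b x.1 x.2) m') := by
    intro x hx
    rw [ext2_m hmm hb, ext2_m' hmm hb (hm x hx).1]
  have hinj : Set.InjOn (fun x : Finset ι × Finset ι => ext2 m m' b x.1 x.2)
      ((D : Finset (Finset ι × Finset ι)) : Set (Finset ι × Finset ι)) := by
    intro x hx y hy h
    have hx' := hm x (by simpa using hx)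
    have hy' := hm y (by simpa using hy)
    have h2 : ext2 m m' b x.1 x.2 = ext2 m m' b y.1 y.2 := h
    refine Prod.ext ?_ ?_
    · rw [← ext2_m hmm hb x.1 x.2, ← ext2_m hmm hb y.1 y.2, h2]
    · rw [← ext2_m' hmm hb hx'.1, ← ext2_m' hmm hb hy'.1, h2]
  rw [Finset.sum_congr rfl h1,
    ← Finset.sum_image (f := fun c : ι → Option κ => F (cls c m) (cls c m')) hinj]
  refine Finset.sum_le_sum_of_subset_of_nonneg ?_ fun c _ _ => hF _ _
  intro c hc
  obtain ⟨x, hx, rfl⟩ := Finset.mem_image.1 hc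
  exact mem_fib.2 (ext2_rs hb (hm x hx).2.1 (hm x hx).2.2)

/-- The truncated sum over the sets which are disjoint from `D`. -/
noncomputable def Gd (t : ι → ℝ) (D S : Finset ι) : ℝ := if T t S ≤ 1 ∧ Disjoint S D then 1 else 0

theorem Gd_nonneg (t : ι → ℝ) (D S : Finset ι) : 0 ≤ Gd t D S := by
  unfold Gd
  split_ifs
  · exact zero_le_one
  · exact le_rfl

theorem Gd_anti {t : ι → ℝ} (ht : ∀ p, 0 ≤ t p) (D : Finset ι) (S S' : Finset ι) (h : S ⊆ S') :
    Gd t D S' ≤ Gd t D S := by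
  unfold Gd
  by_cases h1 : T t S' ≤ 1 ∧ Disjoint S' D
  · rw [if_pos h1, if_pos ⟨(T_mono ht h).trans h1.1, Disjoint.mono_left h h1.2⟩]
  · rw [if_neg h1]
    split_ifs
    · exact zero_le_one
    · exact le_rfl

theorem Vb_ge {m m' : κ} (hmm : m ≠ m') {w t : ι → ℝ} (hw : ∀ p, 0 ≤ w p) (ht : ∀ p, 0 ≤ t p)
    {b : ι → Option κ} (hb : rs m m' b = b) :
    (1 - ∑ p, w p ^ 2) * (∑ S : Finset ι, Gd t (supp b) S * ws w S) ^ 2 ≤ Vb m m' w t b := by
  set H : Finset ι → ℝ := fun S => Gd t (supp b) S * ws w S with hH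
  have hH0 : ∀ S, 0 ≤ H S := fun S => mul_nonneg (Gd_nonneg _ _ _) (ws_nonneg hw S)
  set F : Finset ι → Finset ι → ℝ := fun S S' =>
    ws w S * ws w S' * (if T t S ≤ 1 ∧ T t S' ≤ 1 then 1 else 0) with hF
  have hF0 : ∀ S S', 0 ≤ F S S' := by
    intro S S'
    refine mul_nonneg (mul_nonneg (ws_nonneg hw S) (ws_nonneg hw S')) ?_
    split_ifs
    · exact zero_le_one
    · exact le_rfl
  have h1 : Vb m m' w t b = ∑ c ∈ fib m m' b, F (cls c m) (cls c m') := by
    unfold Vb
    refine Finset.sum_congr rfl fun c _ => ?_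
    rw [w2_cls hmm]
    rfl
  rw [h1]
  refine le_trans ?_ (fib_sum_ge hmm hb hF0)
  have h2 : ∀ x : Finset ι × Finset ι, H x.1 * H x.2 *
      (1 - ∑ p, (if p ∈ x.1 then 1 else 0) * (if p ∈ x.2 then 1 else 0)) ≤
      if Disjoint x.1 x.2 ∧ Disjoint x.1 (supp b) ∧ Disjoint x.2 (supp b) then F x.1 x.2 else 0 := by
    rintro ⟨S, S'⟩
    simp only
    have hsum0 : (0 : ℝ) ≤ ∑ p, (if p ∈ S then (1 : ℝ) else 0) * (if p ∈ S' then 1 else 0) := by
      refine Finset.sum_nonneg fun p _ => mul_nonneg ?_ ?_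
      · split_ifs <;> norm_num
      · split_ifs <;> norm_num
    by_cases hd : Disjoint S S'
    · by_cases h3 : Disjoint S (supp b) ∧ Disjoint S' (supp b)
      · rw [if_pos ⟨hd, h3.1, h3.2⟩]
        have h4 : H S * H S' = F S S' := by
          simp only [hH, hF, Gd]
          by_cases h5 : T t S ≤ 1
          · by_cases h6 : T t S' ≤ 1
            · simp [h5, h6, h3.1, h3.2]
            · simp [h5, h6]
          · simp [h5]
        rw [← h4]
        nlinarith [mul_nonneg (hH0 S) (hH0 S')]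
      · rw [if_neg fun h => h3 ⟨h.2.1, h.2.2⟩]
        have h4 : H S * H S' = 0 := by
          simp only [hH, Gd]
          by_cases h5 : Disjoint S (supp b)
          · have h6 : ¬ Disjoint S' (supp b) := fun h => h3 ⟨h5, h⟩
            simp [h6]
          · simp [h5]
        rw [h4, zero_mul]
    · rw [if_neg fun h => hd h.1]
      obtain ⟨q, hq, hq'⟩ := Finset.not_disjoint_iff.1 hd
      have h4 : (1 : ℝ) ≤ ∑ p, (if p ∈ S then (1 : ℝ) else 0) * (if p ∈ S' then 1 else 0) := by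
        have h5 := Finset.single_le_sum (s := univ)
          (f := fun p => (if p ∈ S then (1 : ℝ) else 0) * (if p ∈ S' then 1 else 0))
          (fun p _ => mul_nonneg (by split_ifs <;> norm_num) (by split_ifs <;> norm_num))
          (Finset.mem_univ q)
        simpa [hq, hq'] using h5
      exact mul_nonpos_of_nonneg_of_nonpos (mul_nonneg (hH0 S) (hH0 S')) (by linarith)
  rw [Finset.sum_filter]
  refine le_trans ?_ (Finset.sum_le_sum fun x _ => h2 x)
  have h3 : ∑ x : Finset ι × Finset ι, H x.1 * H x.2 *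
      (1 - ∑ p, (if p ∈ x.1 then 1 else 0) * (if p ∈ x.2 then 1 else 0)) =
      (∑ S, H S) ^ 2 - ∑ p, (∑ S, if p ∈ S then H S else 0) ^ 2 := by
    have h4 : ∀ x : Finset ι × Finset ι, H x.1 * H x.2 *
      (1 - ∑ p, (if p ∈ x.1 then 1 else 0) * (if p ∈ x.2 then 1 else 0)) = H x.1 * H x.2 -
        ∑ p, (if p ∈ x.1 then H x.1 else 0) * (if p ∈ x.2 then H x.2 else 0) := by
      intro x
      rw [mul_sub, mul_one, Finset.mul_sum]
      congr 1
      refine Finset.sum_congr rfl fun p _ => ?_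
      by_cases h5 : p ∈ x.1
      · by_cases h6 : p ∈ x.2
        · simp [h5, h6]
        · simp [h6]
      · simp [h5]
    simp only [h4]
    rw [Finset.sum_sub_distrib, Finset.sum_comm (s := (univ : Finset (Finset ι × Finset ι)))]
    congr 1
    · rw [pow_two, Finset.sum_mul_sum, ← Finset.univ_product_univ, Finset.sum_product]
    · refine Finset.sum_congr rfl fun p _ => ?_
      rw [pow_two, Finset.sum_mul_sum, ← Finset.univ_product_univ, Finset.sum_product]
  rw [h3]
  have h5 : ∀ p, (∑ S, if p ∈ S then H S else 0) ^ 2 ≤ (w p * ∑ S, H S) ^ 2 := by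
    intro p
    have h6 := memSum hw (Gd_nonneg t (supp b)) (Gd_anti ht (supp b)) p
    refine pow_le_pow_left₀ (Finset.sum_nonneg fun S _ => ?_) h6 2
    split_ifs
    · exact hH0 S
    · exact le_rfl
  have h7 : ∑ p, (∑ S, if p ∈ S then H S else 0) ^ 2 ≤ (∑ p, w p ^ 2) * (∑ S, H S) ^ 2 := by
    refine (Finset.sum_le_sum fun p _ => h5 p).trans (le_of_eq ?_)
    rw [Finset.sum_mul]
    exact Finset.sum_congr rfl fun p _ => by ring
  linarith

theorem sum_mem_le {w : ι → ℝ} (hw : ∀ p, 0 ≤ w p) {G : Finset ι → ℝ}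
    (hanti : ∀ S S', S ⊆ S' → G S' ≤ G S) (p : ι) :
    ∑ S : Finset ι, G S * ws w S ≤
      (1 + w p) * ∑ S ∈ univ.filter (fun S : Finset ι => p ∉ S), G S * ws w S := by
  have h1 : ∑ S ∈ univ.filter (fun S : Finset ι => ¬ p ∉ S), G S * ws w S ≤
      w p * ∑ S ∈ univ.filter (fun S : Finset ι => p ∉ S), G S * ws w S := by
    have h2 : ∑ S ∈ univ.filter (fun S : Finset ι => ¬ p ∉ S), G S * ws w S =
        ∑ S ∈ univ.filter (fun S : Finset ι => p ∉ S), G (insert p S) * ws w (insert p S) := by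
      refine Finset.sum_nbij' (fun S => S.erase p) (fun S => insert p S) ?_ ?_ ?_ ?_ ?_
      · intro S hS
        simp
      · intro S hS
        simp
      · intro S hS
        have hS' : p ∈ S := by simpa using hS
        exact Finset.insert_erase hS'
      · intro S hS
        have hS' : p ∉ S := by simpa using hS
        exact Finset.erase_insert hS'
      · intro S hS
        have hS' : p ∈ S := by simpa using hS
        rw [Finset.insert_erase hS']
    rw [h2, Finset.mul_sum]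
    refine Finset.sum_le_sum fun S hS => ?_
    have hS' : p ∉ S := by simpa using hS
    have h3 : ws w (insert p S) = w p * ws w S := Finset.prod_insert hS'
    rw [h3]
    have h4 := hanti S (insert p S) (Finset.subset_insert p S)
    calc G (insert p S) * (w p * ws w S) ≤ G S * (w p * ws w S) :=
          mul_le_mul_of_nonneg_right h4 (mul_nonneg (hw p) (ws_nonneg hw S))
      _ = _ := by ring
  rw [← Finset.sum_filter_add_sum_filter_not univ (fun S : Finset ι => p ∉ S)]
  linarith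

theorem V0_le {w t : ι → ℝ} (hw : ∀ p, 0 ≤ w p) (ht : ∀ p, 0 ≤ t p) (D : Finset ι) :
    V0 w t ≤ (∏ p ∈ D, (1 + w p)) * ∑ S : Finset ι, Gd t D S * ws w S := by
  induction D using Finset.induction_on with
  | empty =>
    rw [Finset.prod_empty, one_mul]
    unfold V0
    rw [Finset.sum_filter]
    refine le_of_eq (Finset.sum_congr rfl fun S _ => ?_)
    unfold Gd
    by_cases h : T t S ≤ 1 <;> simp [h]
  | insert p D hp ih =>
    refine ih.trans ?_
    rw [Finset.prod_insert hp]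
    have h1 := sum_mem_le hw (Gd_anti ht D) p
    have h2 : ∑ S ∈ univ.filter (fun S : Finset ι => p ∉ S), Gd t D S * ws w S =
        ∑ S : Finset ι, Gd t (insert p D) S * ws w S := by
      rw [Finset.sum_filter]
      refine Finset.sum_congr rfl fun S _ => ?_
      unfold Gd
      by_cases h3 : p ∈ S
      · simp [h3]
      · simp [h3]
    rw [h2] at h1
    have h4 : 0 ≤ ∏ q ∈ D, (1 + w q) := Finset.prod_nonneg fun q _ => by linarith [hw q]
    calc (∏ q ∈ D, (1 + w q)) * ∑ S : Finset ι, Gd t D S * ws w S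
        ≤ (∏ q ∈ D, (1 + w q)) * ((1 + w p) * ∑ S : Finset ι, Gd t (insert p D) S * ws w S) :=
          mul_le_mul_of_nonneg_left h1 h4
      _ = _ := by ring

/-- The sum of `γ² w ∏ (1 + w)²`. -/
theorem sum_sq_le {w : ι → ℝ} (hw : ∀ p, 0 ≤ w p) (hw1 : ∀ p, w p ≤ 1) {γ : Finset ι → ℝ}
    (h0 : ∀ S, 0 ≤ γ S) (hanti : ∀ S S', S ⊆ S' → γ S' ≤ γ S) :
    ∑ S : Finset ι, γ S ^ 2 * ws w S * (∏ p ∈ S, (1 + w p)) ^ 2 ≤
      B1 w γ * Real.exp (3 * ∑ p, w p ^ 2) := by
  set u : ι → ℝ := fun p => 2 * w p + w p ^ 2 with hu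
  have hu0 : ∀ p, 0 ≤ u p := fun p => by
    simp only [hu]
    have := hw p
    positivity
  have h1 : ∀ S : Finset ι, (∏ p ∈ S, (1 + w p)) ^ 2 = ∑ U ∈ S.powerset, ws u U := by
    intro S
    have h2 : (∏ p ∈ S, (1 + w p)) ^ 2 = ∏ p ∈ S, (1 + u p) := by
      rw [← Finset.prod_pow]
      refine Finset.prod_congr rfl fun p _ => ?_
      simp only [hu]
      ring
    rw [h2, Finset.prod_one_add]
    rfl
  have h3 : ∑ S : Finset ι, γ S ^ 2 * ws w S * (∏ p ∈ S, (1 + w p)) ^ 2 =
      ∑ U : Finset ι, ws u U * ∑ S ∈ univ.filter (fun S : Finset ι => U ⊆ S),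
        γ S ^ 2 * ws w S := by
    have h4 : ∀ S : Finset ι, γ S ^ 2 * ws w S * (∏ p ∈ S, (1 + w p)) ^ 2 =
        ∑ U : Finset ι, if U ⊆ S then ws u U * (γ S ^ 2 * ws w S) else 0 := by
      intro S
      rw [h1, Finset.mul_sum, ← Finset.sum_filter]
      have h5 : S.powerset = univ.filter (fun U : Finset ι => U ⊆ S) := by
        ext U
        simp
      rw [h5]
      exact Finset.sum_congr rfl fun U _ => by ring
    simp only [h4]
    rw [Finset.sum_comm]
    refine Finset.sum_congr rfl fun U _ => ?_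
    rw [← Finset.sum_filter, Finset.mul_sum]
  rw [h3]
  have hg0 : ∀ S, 0 ≤ γ S ^ 2 := fun S => sq_nonneg _
  have hga : ∀ S S', S ⊆ S' → γ S' ^ 2 ≤ γ S ^ 2 := fun S S' h =>
    pow_le_pow_left₀ (h0 S') (hanti S S' h) 2
  have hB : 0 ≤ B1 w γ := Finset.sum_nonneg fun S _ => mul_nonneg (hg0 S) (ws_nonneg hw S)
  calc ∑ U : Finset ι, ws u U * ∑ S ∈ univ.filter (fun S : Finset ι => U ⊆ S),
        γ S ^ 2 * ws w S
      ≤ ∑ U : Finset ι, ws u U * (ws w U * B1 w γ) :=
        Finset.sum_le_sum fun U _ => mul_le_mul_of_nonneg_left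
          (superSum hw hg0 hga U) (ws_nonneg hu0 U)
    _ = B1 w γ * ∑ U : Finset ι, ws (fun p => u p * w p) U := by
        rw [Finset.mul_sum]
        refine Finset.sum_congr rfl fun U _ => ?_
        unfold ws
        rw [Finset.prod_mul_distrib]
        ring
    _ = B1 w γ * ∏ p, (1 + u p * w p) := by
        rw [Finset.prod_one_add, Finset.powerset_univ]
        rfl
    _ ≤ B1 w γ * Real.exp (3 * ∑ p, w p ^ 2) := by
        refine mul_le_mul_of_nonneg_left ?_ hB
        refine (prod_one_add_le (fun p => u p * w p) fun p => mul_nonneg (hu0 p) (hw p)).trans ?_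
        rw [Real.exp_le_exp, Finset.mul_sum]
        refine Finset.sum_le_sum fun p _ => ?_
        simp only [hu]
        nlinarith [hw p, hw1 p, mul_nonneg (hw p) (hw p), mul_nonneg (mul_nonneg (hw p) (hw p))
          (sub_nonneg.2 (hw1 p))]

/-- The local sums for `TupleSum`. -/
noncomputable def Gt (m m' : κ) (w : ι → ℝ) (γ : Finset ι → ℝ) (i : κ) (S : Finset ι) : ℝ :=
  if i = m ∨ i = m' then (if S = ∅ then 1 else 0)
  else γ S ^ 2 * ws w S * (∏ p ∈ S, (1 + w p)) ^ 2

theorem Gt_nonneg {m m' : κ} {w : ι → ℝ} (hw : ∀ p, 0 ≤ w p) (γ : Finset ι → ℝ) (i : κ)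
    (S : Finset ι) : 0 ≤ Gt m m' w γ i S := by
  unfold Gt
  split_ifs
  · exact zero_le_one
  · exact le_rfl
  · exact mul_nonneg (mul_nonneg (sq_nonneg _) (ws_nonneg hw S)) (sq_nonneg _)

theorem cls_fix {m m' : κ} {b : ι → Option κ} (hb : rs m m' b = b) :
    cls b m = ∅ ∧ cls b m' = ∅ := by
  constructor
  · ext p
    simp only [mem_cls, Finset.notMem_empty, iff_false]
    exact (fix_ne hb p).1
  · ext p
    simp only [mem_cls, Finset.notMem_empty, iff_false]
    exact (fix_ne hb p).2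

theorem prod_Gt {m m' : κ} (w : ι → ℝ) (γ : Finset ι → ℝ) {b : ι → Option κ}
    (hb : rs m m' b = b) :
    ws w (supp b) * gb m m' γ b ^ 2 * (∏ p ∈ supp b, (1 + w p)) ^ 2 =
      ∏ i, Gt m m' w γ i (cls b i) := by
  rw [ws_supp, prod_supp (fun p => 1 + w p) b]
  unfold gb
  rw [← Finset.prod_pow, ← Finset.prod_pow, ← Finset.prod_mul_distrib, ← Finset.prod_mul_distrib]
  refine Finset.prod_congr rfl fun i _ => ?_
  unfold Gt
  by_cases hi : i = m ∨ i = m'
  · have h1 : cls b i = ∅ := by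
      rcases hi with rfl | rfl
      · exact (cls_fix hb).1
      · exact (cls_fix hb).2
    rw [if_pos hi, if_pos hi, h1, if_pos rfl]
    simp [ws]
  · rw [if_neg hi, if_neg hi]
    ring

theorem prod_Gt_sum {m m' : κ} (hmm : m ≠ m') (w : ι → ℝ) (γ : Finset ι → ℝ) :
    ∏ i, ∑ S : Finset ι, Gt m m' w γ i S =
      (∑ S : Finset ι, γ S ^ 2 * ws w S * (∏ p ∈ S, (1 + w p)) ^ 2) ^ (Fintype.card κ - 2) := by
  set C := ∑ S : Finset ι, γ S ^ 2 * ws w S * (∏ p ∈ S, (1 + w p)) ^ 2 with hC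
  have h1 : ∀ i, ∑ S : Finset ι, Gt m m' w γ i S = if ¬ (i = m ∨ i = m') then C else 1 := by
    intro i
    by_cases hi : i = m ∨ i = m'
    · rw [if_neg (not_not.2 hi)]
      unfold Gt
      simp only [if_pos hi]
      rw [Finset.sum_ite_eq' univ (∅ : Finset ι) (fun _ => (1 : ℝ)), if_pos (Finset.mem_univ _)]
    · rw [if_pos hi]
      unfold Gt
      simp only [if_neg hi]
      rfl
  simp only [h1]
  rw [← Finset.prod_filter, Finset.prod_const]
  congr 1
  have h2 : univ.filter (fun i : κ => ¬ (i = m ∨ i = m')) = univ \ {m, m'} := by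
    ext i
    simp
  rw [h2, Finset.card_sdiff_of_subset (Finset.subset_univ _), Finset.card_univ,
    Finset.card_pair hmm]

theorem sg_sq (c : ι → Option κ) : (∏ p, sg (c p)) ^ 2 = 1 := by
  rw [← Finset.prod_pow]
  refine Finset.prod_eq_one fun p _ => ?_
  unfold sg
  split_ifs <;> norm_num

theorem rho_sq {m m' : κ} {t : ι → ℝ} (c : ι → Option κ) :
    rho m m' t c ^ 2 = rho m m' t c := by
  unfold rho
  split_ifs <;> norm_num

theorem rho_le {m m' : κ} {t : ι → ℝ} (c : ι → Option κ) : rho m m' t c ≤ 1 := by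
  unfold rho
  split_ifs <;> norm_num

theorem energy_eq {m m' : κ} (w t : ι → ℝ) (γ : Finset ι → ℝ) :
    ∑ c : ι → Option κ, ws w (supp c) * ((∏ p, sg (c p)) * Fv m m' w t γ c) ^ 2 =
      ∑ b : ι → Option κ, ws w (supp b) * (Zb m m' w t γ b / Vb m m' w t b) ^ 2 *
        Vb m m' w t b := by
  rw [← Finset.sum_fiberwise (s := (univ : Finset (ι → Option κ))) (g := rs m m')]
  refine Finset.sum_congr rfl fun b _ => ?_
  have h1 : ∀ c ∈ univ.filter (fun c : ι → Option κ => rs m m' c = b),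
      ws w (supp c) * ((∏ p, sg (c p)) * Fv m m' w t γ c) ^ 2 =
      ws w (supp b) * (Zb m m' w t γ b / Vb m m' w t b) ^ 2 *
        (w2 m m' w c * rho m m' t c) := by
    intro c hc
    have hb : rs m m' c = b := (Finset.mem_filter.1 hc).2
    rw [ws_rs (m := m) (m' := m') w c, mul_pow, sg_sq, one_mul]
    unfold Fv
    rw [mul_pow, rho_sq, hb]
    ring
  rw [Finset.sum_congr rfl h1, ← Finset.mul_sum]
  rfl

theorem energy_term {m m' : κ} (hmm : m ≠ m') {w t : ι → ℝ} {γ : Finset ι → ℝ}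
    (hw : ∀ p, 0 ≤ w p) (ht : ∀ p, 0 ≤ t p) (h0 : ∀ S, 0 ≤ γ S) (hη : ∑ p, w p ^ 2 ≤ 1)
    (b : ι → Option κ) :
    ws w (supp b) * (Zb m m' w t γ b / Vb m m' w t b) ^ 2 * Vb m m' w t b *
      (V0 w t ^ 2 * (1 - ∑ p, w p ^ 2)) ≤ A1 w γ ^ 4 * ∏ i, Gt m m' w γ i (cls b i) := by
  have hG : 0 ≤ ∏ i, Gt m m' w γ i (cls b i) := Finset.prod_nonneg fun i _ => Gt_nonneg hw γ i _
  by_cases hb : rs m m' b = b
  · set Z := Zb m m' w t γ b with hZ
    set V := Vb m m' w t b with hV
    set P := ∏ p ∈ supp b, (1 + w p) with hP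
    set S0 := ∑ S : Finset ι, Gd t (supp b) S * ws w S with hS0
    have hV1 : 1 ≤ V := Vb_ge_one hw hb
    have hV0 : 0 < V := lt_of_lt_of_le zero_lt_one hV1
    have hZ0 : 0 ≤ Z := Zb_nonneg hw h0 b
    have hZ1 : Z ≤ gb m m' γ b * A1 w γ ^ 2 := Zb_le hmm hw h0 b
    have h1 : (1 - ∑ p, w p ^ 2) * S0 ^ 2 ≤ V := Vb_ge hmm hw ht hb
    have h2 : V0 w t ≤ P * S0 := V0_le hw ht (supp b)
    have hV00 : 0 ≤ V0 w t := Finset.sum_nonneg fun S _ => ws_nonneg hw S
    have h3 : V0 w t ^ 2 * (1 - ∑ p, w p ^ 2) ≤ P ^ 2 * V := by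
      have h4 : V0 w t ^ 2 ≤ (P * S0) ^ 2 := pow_le_pow_left₀ hV00 h2 2
      calc V0 w t ^ 2 * (1 - ∑ p, w p ^ 2) ≤ (P * S0) ^ 2 * (1 - ∑ p, w p ^ 2) :=
            mul_le_mul_of_nonneg_right h4 (by linarith)
        _ = P ^ 2 * ((1 - ∑ p, w p ^ 2) * S0 ^ 2) := by ring
        _ ≤ P ^ 2 * V := mul_le_mul_of_nonneg_left h1 (sq_nonneg _)
    have h5 : (Z / V) ^ 2 * V * (V0 w t ^ 2 * (1 - ∑ p, w p ^ 2)) ≤
        (gb m m' γ b * A1 w γ ^ 2) ^ 2 * P ^ 2 := by
      calc (Z / V) ^ 2 * V * (V0 w t ^ 2 * (1 - ∑ p, w p ^ 2))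
          ≤ (Z / V) ^ 2 * V * (P ^ 2 * V) :=
            mul_le_mul_of_nonneg_left h3 (mul_nonneg (sq_nonneg _) hV0.le)
        _ = Z ^ 2 * P ^ 2 := by
            field_simp
        _ ≤ _ := mul_le_mul_of_nonneg_right (pow_le_pow_left₀ hZ0 hZ1 2) (sq_nonneg _)
    rw [← prod_Gt w γ hb]
    have hws : 0 ≤ ws w (supp b) := ws_nonneg hw _
    calc ws w (supp b) * (Z / V) ^ 2 * V * (V0 w t ^ 2 * (1 - ∑ p, w p ^ 2))
        = ws w (supp b) * ((Z / V) ^ 2 * V * (V0 w t ^ 2 * (1 - ∑ p, w p ^ 2))) := by ring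
      _ ≤ ws w (supp b) * ((gb m m' γ b * A1 w γ ^ 2) ^ 2 * P ^ 2) :=
          mul_le_mul_of_nonneg_left h5 hws
      _ = _ := by ring
  · have h1 : fib m m' b = ∅ := by
      rw [Finset.eq_empty_iff_forall_notMem]
      intro c hc
      apply hb
      rw [← mem_fib.1 hc, rs_idem]
    have h2 : Vb m m' w t b = 0 := by
      unfold Vb
      rw [h1, Finset.sum_empty]
    rw [h2, mul_zero, zero_mul]
    exact mul_nonneg (pow_nonneg (A1_nonneg hw h0) 4) hG

theorem pairMajorant (hT : TupleSum) : PairMajorant := by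
  intro ι κ _ _ _ _ w t γ τ η hg m m' hmm
  have hw := hg.w_nonneg
  have ht := hg.t_nonneg
  have h0 := hg.g_nonneg
  have hK2 : 2 ≤ Fintype.card κ := by
    have h1 : ({m, m'} : Finset κ).card ≤ Fintype.card κ := Finset.card_le_univ _
    rwa [Finset.card_pair hmm] at h1
  have hK : (2 : ℝ) ≤ Fintype.card κ := by exact_mod_cast hK2
  have hw1 : ∀ p, w p ≤ 1 := by
    intro p
    have h1 := hg.w_le p
    have h2 := hw p
    nlinarith
  set q := ∑ p, w p ^ 2 with hq
  have hq0 : 0 ≤ q := Finset.sum_nonneg fun p _ => sq_nonneg _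
  have hqK : 1000 * (Fintype.card κ : ℝ) ^ 2 * q ≤ 1 := by
    have h1 := hg.eta
    have h2 := hg.sq
    have h3 : (0 : ℝ) ≤ 1000 * (Fintype.card κ : ℝ) ^ 2 := by positivity
    nlinarith [mul_le_mul_of_nonneg_left h2 h3]
  have hqK' : 1000 * (Fintype.card κ : ℝ) * q ≤ 1 := by
    have h1 : (Fintype.card κ : ℝ) * q ≤ (Fintype.card κ : ℝ) ^ 2 * q := by
      have h2 : (Fintype.card κ : ℝ) ≤ (Fintype.card κ : ℝ) ^ 2 := by nlinarith
      exact mul_le_mul_of_nonneg_right h2 hq0
    linarith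
  have hq1 : q ≤ 1 / 2 := by nlinarith
  have hA : 0 ≤ A1 w γ := A1_nonneg hw h0
  refine ⟨fun c => (∏ p, sg (c p)) * Fv m m' w t γ c, ?_, ?_, ?_, ?_⟩
  · intro c h1 h2
    exact lam_eq hw h1 h2
  · intro c hc
    have h1 : Fv m m' w t γ c ≠ 0 := right_ne_zero_of_mul hc
    have h2 : rho m m' t c ≠ 0 := left_ne_zero_of_mul h1
    have h3 : Zb m m' w t γ (rs m m' c) ≠ 0 := by
      intro h
      apply h1
      unfold Fv
      rw [h, zero_div, mul_zero]
    obtain ⟨c'', hc'', h4⟩ := Finset.exists_ne_zero_of_sum_ne_zero h3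
    have h5 : Yv t γ c'' ≠ 0 := right_ne_zero_of_mul h4
    have h6 : T t (supp c'') ≤ 1 := by
      by_contra h
      apply h5
      unfold Yv
      rw [if_neg h]
    have h7 : T t (cls c m) ≤ 1 ∧ T t (cls c m') ≤ 1 := by
      by_contra h
      apply h2
      unfold rho
      rw [if_neg h]
    have h8 : T t (supp (rs m m' c)) ≤ T t (supp c'') := by
      rw [← mem_fib.1 hc'']
      exact T_mono ht (supp_rs_sub m m' c'')
    rw [T_rs hmm]
    linarith [h7.1, h7.2]
  · intro c
    rw [abs_mul]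
    have h1 : |∏ p, sg (c p)| = 1 := by
      have h2 := sg_sq c
      rw [← sq_abs] at h2
      nlinarith [abs_nonneg (∏ p, sg (c p))]
    rw [h1, one_mul]
    have hb : rs m m' (rs m m' c) = rs m m' c := rs_idem m m' c
    have hV1 : 1 ≤ Vb m m' w t (rs m m' c) := Vb_ge_one hw hb
    have hZ0 : 0 ≤ Zb m m' w t γ (rs m m' c) := Zb_nonneg hw h0 _
    have hZ1 : Zb m m' w t γ (rs m m' c) ≤ gb m m' γ (rs m m' c) * A1 w γ ^ 2 :=
      Zb_le hmm hw h0 _
    have hd0 : 0 ≤ Zb m m' w t γ (rs m m' c) / Vb m m' w t (rs m m' c) :=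
      div_nonneg hZ0 (by linarith)
    have h2 : 0 ≤ Fv m m' w t γ c := mul_nonneg (rho_nonneg c) hd0
    rw [abs_of_nonneg h2]
    have h3 : Zb m m' w t γ (rs m m' c) / Vb m m' w t (rs m m' c) ≤
        Zb m m' w t γ (rs m m' c) := div_le_self hZ0 hV1
    have h4 : gb m m' γ (rs m m' c) * A1 w γ ^ 2 ≤ 1 * A1 w γ ^ 2 :=
      mul_le_mul_of_nonneg_right (gb_le_one h0 hg.g_le _) (sq_nonneg _)
    calc Fv m m' w t γ c
        ≤ 1 * (Zb m m' w t γ (rs m m' c) / Vb m m' w t (rs m m' c)) :=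
          mul_le_mul_of_nonneg_right (rho_le c) hd0
      _ ≤ A1 w γ ^ 2 := by linarith
  · rw [energy_eq]
    set C := ∑ S : Finset ι, γ S ^ 2 * ws w S * (∏ p ∈ S, (1 + w p)) ^ 2 with hC
    set E := ∑ b : ι → Option κ, ws w (supp b) * (Zb m m' w t γ b / Vb m m' w t b) ^ 2 *
        Vb m m' w t b with hE
    have hB : 0 ≤ B1 w γ := Finset.sum_nonneg fun S _ => mul_nonneg (sq_nonneg _) (ws_nonneg hw S)
    have hC0 : 0 ≤ C := Finset.sum_nonneg fun S _ =>
      mul_nonneg (mul_nonneg (sq_nonneg _) (ws_nonneg hw S)) (sq_nonneg _)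
    have h1 : E * (V0 w t ^ 2 * (1 - q)) ≤ A1 w γ ^ 4 * C ^ (Fintype.card κ - 2) := by
      rw [hE, Finset.sum_mul]
      refine (Finset.sum_le_sum fun b _ =>
        energy_term hmm hw ht h0 (by linarith : ∑ p, w p ^ 2 ≤ 1) b).trans ?_
      rw [← Finset.mul_sum, ← prod_Gt_sum hmm]
      exact mul_le_mul_of_nonneg_left
        (hT ι κ (Gt m m' w γ) fun i S => Gt_nonneg hw γ i S) (pow_nonneg hA 4)
    have h2 : C ≤ B1 w γ * Real.exp (3 * q) := sum_sq_le hw hw1 h0 hg.g_anti
    have h3 : C ^ (Fintype.card κ - 2) ≤ 2 * B1 w γ ^ (Fintype.card κ - 2) := by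
      refine (pow_le_pow_left₀ hC0 h2 _).trans ?_
      rw [mul_pow, ← Real.exp_nat_mul, mul_comm]
      refine mul_le_mul_of_nonneg_right ?_ (pow_nonneg hB _)
      have h4 : ((Fintype.card κ - 2 : ℕ) : ℝ) ≤ Fintype.card κ := by
        exact_mod_cast Nat.sub_le _ _
      have h5 : (0 : ℝ) ≤ ((Fintype.card κ - 2 : ℕ) : ℝ) := Nat.cast_nonneg _
      have h6 : ((Fintype.card κ - 2 : ℕ) : ℝ) * (3 * q) ≤ 1 / 2 := by
        nlinarith [mul_le_mul_of_nonneg_right h4 hq0]
      have h7 := exp_le_two (mul_nonneg h5 (mul_nonneg (by norm_num : (0 : ℝ) ≤ 3) hq0)) h6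
      linarith
    have h4 : E * (V0 w t ^ 2 * (1 - q)) ≤ A1 w γ ^ 4 * (2 * B1 w γ ^ (Fintype.card κ - 2)) :=
      h1.trans (mul_le_mul_of_nonneg_left h3 (pow_nonneg hA 4))
    have hE0 : 0 ≤ E * V0 w t ^ 2 := by
      refine mul_nonneg ?_ (sq_nonneg _)
      rw [hE]
      refine Finset.sum_nonneg fun b _ => mul_nonneg (mul_nonneg (ws_nonneg hw _) (sq_nonneg _)) ?_
      exact Finset.sum_nonneg fun c _ => mul_nonneg (w2_nonneg hw c) (rho_nonneg c)
    nlinarith

end Pool.Agent.Helper87.MT
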