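import Pool.Agent.Helper1.MT.Defs

/-!
# Project MT, module T: sums over colourings are at most sums over tuples of sets
-/

set_option autoImplicit false

open Finset

namespace Pool.Agent.Helper87.MT

open Pool.Agent.Helper1.MT

theorem tupleSum : TupleSum := by
  intro ι κ _ _ _ _ G hG
  have hinj : Function.Injective (fun (c : ι → Option κ) (i : κ) => cls c i) := by
    intro c c' h
    funext p
    apply Option.ext
    intro i
    have h1 : cls c i = cls c' i := congrFun h i
    have h2 : p ∈ cls c i ↔ p ∈ cls c' i := by rw [h1]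
    simpa [cls] using h2
  rw [prod_univ_sum, Fintype.piFinset_univ]
  calc ∑ c : ι → Option κ, ∏ i, G i (cls c i)
      = ∑ f ∈ univ.map ⟨fun (c : ι → Option κ) (i : κ) => cls c i, hinj⟩, ∏ i, G i (f i) := by
        rw [sum_map]
        rfl
    _ ≤ ∑ f : κ → Finset ι, ∏ i, G i (f i) :=
        sum_le_sum_of_subset_of_nonneg (subset_univ _) fun f _ _ =>
          prod_nonneg fun i _ => hG i (f i)

end Pool.Agent.Helper87.MT
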